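import Pool.Agent.Lib.MP_0852b5_an.RanRate
import Pool.Agent.Lib.MP_0852b5_an.UpperG

/-!
# MP_0852b5_an: gain of non-adaptive randomization

`G = 1`: the maximal gain in the rate of convergence of non-adaptive randomized algorithms over
non-adaptive deterministic algorithms for linear problems on convex symmetric classes is one.
-/

namespace Pool.Agent.Results.MP_0852b5_an.GainEqOne

open Pool.Agent.Lib.MP_0852b5_an

/-- The maximal gain of non-adaptive randomization over deterministic non-adaptive algorithms on
convex symmetric classes is exactly one. -/
theorem result : G = 1 := le_antisymm G_le_one one_le_G

end Pool.Agent.Results.MP_0852b5_an.GainEqOne
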